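import Mathlib

/-! Trees: levels from a root, independent set counts. -/

set_option autoImplicit false

namespace Pool.Agent.H526Z.HL

open SimpleGraph Finset

variable {V : Type}

theorem exists_parent {T : SimpleGraph V} (hT : T.Connected) (r v : V) (k : ℕ)
    (h : T.dist r v = k + 1) : ∃ x, T.Adj x v ∧ T.dist r x = k := by
  obtain ⟨p, hp⟩ := hT.exists_walk_length_eq_dist v r
  cases p with
  | nil => rw [dist_self] at h; omega
  | @cons _ x _ hx q =>
    refine ⟨x, hx.symm, ?_⟩
    have h1 : T.dist x r ≤ q.length := dist_le q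
    have h2 := hx.diff_dist_adj (u := r)
    rw [Walk.length_cons, dist_comm] at hp
    rw [dist_comm] at h1
    omega

theorem unique_parent {T : SimpleGraph V} (hT : T.IsTree) (r v x y : V)
    (hx : T.Adj v x) (hy : T.Adj v y) (h1 : T.dist r x ≤ T.dist r v)
    (h2 : T.dist r y ≤ T.dist r v) : x = y := by
  have e1 := hT.dist_eq_dist_add_one_of_adj r hx
  have e2 := hT.dist_eq_dist_add_one_of_adj r hy
  obtain ⟨p, hp⟩ := hT.connected.exists_walk_length_eq_dist r x
  obtain ⟨q, hq⟩ := hT.connected.exists_walk_length_eq_dist r y
  have hp' : (p.concat hx.symm).IsPath :=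
    Walk.isPath_of_length_eq_dist _ (by rw [Walk.length_concat]; omega)
  have hq' : (q.concat hy.symm).IsPath :=
    Walk.isPath_of_length_eq_dist _ (by rw [Walk.length_concat]; omega)
  have := (hT.existsUnique_path r v).unique hp' hq'
  exact (Walk.concat_inj this).1

/-- A tree without a vertex with three neighbours is a path. -/
theorem iso_path {n : ℕ} (hn : 2 ≤ n) {T : SimpleGraph (Fin n)} (hT : T.IsTree)
    (hc : ∀ w a b c, T.Adj w a → T.Adj w b → T.Adj w c → a = b ∨ a = c ∨ b = c) :
    Nonempty (T ≃g pathGraph n) := by
  classical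
  have : Nontrivial (Fin n) := Fin.nontrivial_iff_two_le.mpr hn
  obtain ⟨r, hr⟩ := hT.exists_vert_degree_one_of_nontrivial
  rw [degree_eq_one_iff_existsUnique_adj] at hr
  have hinj : ∀ k x y, T.dist r x = k → T.dist r y = k → x = y := by
    intro k
    induction k with
    | zero =>
      intro x y hx hy
      rw [hT.connected.dist_eq_zero_iff] at hx hy
      rw [← hx, ← hy]
    | succ k ih =>
      intro x y hx hy
      obtain ⟨x', hx1, hx2⟩ := exists_parent hT.connected r x k hx
      obtain ⟨y', hy1, hy2⟩ := exists_parent hT.connected r y k hy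
      have hxy : x' = y' := ih _ _ hx2 hy2
      subst hxy
      rcases k with _ | k
      · rw [hT.connected.dist_eq_zero_iff] at hx2
        subst hx2
        exact hr.unique hx1 hy1
      · obtain ⟨z, hz1, hz2⟩ := exists_parent hT.connected r x' k hx2
        rcases hc x' x y z hx1 hy1 hz1.symm with h | h | h
        · exact h
        · subst h; omega
        · subst h; omega
  have hlt : ∀ v, T.dist r v < n := by
    intro v
    obtain ⟨p, hp, hp'⟩ := hT.connected.exists_path_of_dist r v
    have := hp.length_lt
    rw [Fintype.card_fin] at this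
    omega
  let e : Fin n → Fin n := fun v => ⟨T.dist r v, hlt v⟩
  have he : Function.Injective e := by
    intro x y h
    have : T.dist r x = T.dist r y := congrArg Fin.val h
    exact hinj _ x y rfl this.symm
  have hb : Function.Bijective e := Finite.injective_iff_bijective.mp he
  refine ⟨⟨Equiv.ofBijective e hb, ?_⟩⟩
  intro x y
  simp only [Equiv.ofBijective_apply, pathGraph_adj, e]
  constructor
  · rintro (h | h)
    · obtain ⟨z, hz1, hz2⟩ := exists_parent hT.connected r y _ h.symm
      have := hinj _ z x hz2 rfl
      subst this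
      exact hz1
    · obtain ⟨z, hz1, hz2⟩ := exists_parent hT.connected r x _ h.symm
      have := hinj _ z y hz2 rfl
      subst this
      exact hz1.symm
  · intro h
    have := hT.dist_eq_dist_add_one_of_adj r h
    omega

section Ind

open Classical in
/-- The number of independent subsets of `S`. -/
noncomputable def ind (G : SimpleGraph V) (S : Finset V) : ℕ :=
  (S.powerset.filter fun A => ∀ u ∈ A, ∀ v ∈ A, ¬ G.Adj u v).card

open Classical in
theorem ind_insert (G : SimpleGraph V) (S : Finset V) (v : V) (hv : v ∉ S) :
    ind G (insert v S) = ind G S + ind G (S.filter fun x => ¬ G.Adj v x) := by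
  unfold ind
  rw [powerset_insert, filter_union, card_union_of_disjoint]
  · congr 1
    symm
    apply card_bij (fun A _ => insert v A)
    · intro A hA
      simp only [mem_filter, mem_powerset, mem_image] at hA ⊢
      refine ⟨⟨A, hA.1.trans (filter_subset _ _), rfl⟩, ?_⟩
      intro x hx y hy
      rcases mem_insert.mp hx with rfl | hx' <;> rcases mem_insert.mp hy with rfl | hy'
      · exact G.irrefl
      · exact (mem_filter.mp (hA.1 hy')).2
      · intro h; exact (mem_filter.mp (hA.1 hx')).2 h.symm
      · exact hA.2 x hx' y hy'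
    · intro A hA B hB h
      simp only [mem_filter, mem_powerset] at hA hB
      have hA' : v ∉ A := fun h => hv (mem_filter.mp (hA.1 h)).1
      have hB' : v ∉ B := fun h => hv (mem_filter.mp (hB.1 h)).1
      rw [← erase_insert hA', h, erase_insert hB']
    · intro B hB
      simp only [mem_filter, mem_powerset, mem_image] at hB
      obtain ⟨⟨A, hA, rfl⟩, hind⟩ := hB
      refine ⟨A, ?_, rfl⟩
      simp only [mem_filter, mem_powerset]
      refine ⟨fun x hx => mem_filter.mpr ⟨hA hx, ?_⟩, fun x hx y hy => ?_⟩
      · exact hind v (mem_insert_self _ _) x (mem_insert_of_mem hx)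
      · exact hind x (mem_insert_of_mem hx) y (mem_insert_of_mem hy)
  · rw [Finset.disjoint_left]
    intro A hA hA'
    simp only [mem_filter, mem_powerset, mem_image] at hA hA'
    obtain ⟨⟨B, -, rfl⟩, -⟩ := hA'
    exact hv (hA.1 (mem_insert_self _ _))

theorem ind_empty (G : SimpleGraph V) : ind G ∅ = 1 := by
  classical
  unfold ind
  rw [powerset_empty, filter_singleton, if_pos (by simp)]
  simp

theorem ind_of_indep (G : SimpleGraph V) (S : Finset V) (h : ∀ x ∈ S, ∀ y ∈ S, ¬ G.Adj x y) :
    ind G S = 2 ^ S.card := by
  unfold ind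
  rw [← card_powerset]
  congr 1
  ext A
  simp only [mem_filter, mem_powerset, and_iff_left_iff_imp]
  intro hA x hx y hy
  exact h x (hA hx) y (hA hy)

open Classical in
theorem card_filter_ge (G : SimpleGraph V) (S : Finset V) (v : V)
    (h : ∀ x ∈ S, ∀ y ∈ S, G.Adj v x → G.Adj v y → x = y) :
    S.card ≤ (S.filter fun x => ¬ G.Adj v x).card + 1 := by
  have h1 := card_filter_add_card_filter_not (s := S) (fun x => G.Adj v x)
  have h2 : (S.filter fun x => G.Adj v x).card ≤ 1 := by
    rw [card_le_one]
    intro x hx y hy
    exact h x (mem_filter.mp hx).1 y (mem_filter.mp hy).1 (mem_filter.mp hx).2 (mem_filter.mp hy).2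
  omega

theorem fib_le_ind (G : SimpleGraph V) (d : V → ℕ)
    (hP : ∀ v x y, G.Adj v x → G.Adj v y → d x ≤ d v → d y ≤ d v → x = y) :
    ∀ (s : ℕ) (S : Finset V), S.card = s → Nat.fib (s + 2) ≤ ind G S := by
  classical
  intro s
  induction s using Nat.strong_induction_on with
  | _ s ih =>
    intro S hS
    rcases S.eq_empty_or_nonempty with rfl | hne
    · rw [ind_empty]; simp at hS; subst hS; simp
    obtain ⟨v, hv, hmax⟩ := exists_max_image S d hne
    have e : S = insert v (S.erase v) := (insert_erase hv).symm
    have hc : (S.erase v).card + 1 = s := by rw [card_erase_add_one hv, hS]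
    have hf := card_filter_ge G (S.erase v) v (fun x hx y hy h1 h2 =>
      hP v x y h1 h2 (hmax x (mem_of_mem_erase hx)) (hmax y (mem_of_mem_erase hy)))
    have hle := card_filter_le (S.erase v) (fun x => ¬ G.Adj v x)
    rw [e, ind_insert G _ v (notMem_erase v S)]
    have i1 := ih _ (by omega) (S.erase v) rfl
    have i2 := ih _ (by omega) ((S.erase v).filter fun x => ¬ G.Adj v x) rfl
    have i3 : Nat.fib s ≤ Nat.fib (((S.erase v).filter fun x => ¬ G.Adj v x).card + 2) :=
      Nat.fib_mono (by omega)
    have i4 : (S.erase v).card + 2 = s + 1 := by omega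
    rw [i4] at i1
    rw [Nat.fib_add_two]
    have := i3.trans i2
    convert Nat.add_le_add this i1 using 1
    ring

theorem fib_lt_ind {T : SimpleGraph V} (hT : T.IsTree) (w a b c : V)
    (ha : T.Adj w a) (hb : T.Adj w b) (hc : T.Adj w c) (hab : a ≠ b) (hac : a ≠ c) (hbc : b ≠ c) :
    ∀ (s : ℕ) (S : Finset V), S.card = s → w ∈ S → a ∈ S → b ∈ S → c ∈ S →
      Nat.fib (s + 2) + 1 ≤ ind T S := by
  classical
  have hP := unique_parent hT w
  have hA := fib_le_ind T (T.dist w) hP
  have da : T.dist w a = 1 := dist_eq_one_iff_adj.mpr ha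
  have db : T.dist w b = 1 := dist_eq_one_iff_adj.mpr hb
  have dc : T.dist w c = 1 := dist_eq_one_iff_adj.mpr hc
  have dw : T.dist w w = 0 := dist_self
  intro s
  induction s using Nat.strong_induction_on with
  | _ s ih =>
    intro S hS hw' ha' hb' hc'
    rcases (S \ {w, a, b, c}).eq_empty_or_nonempty with he | hne
    · have e : S = insert w {a, b, c} := by
        apply Subset.antisymm (sdiff_eq_empty_iff_subset.mp he)
        intro x hx
        simp only [mem_insert, mem_singleton] at hx
        rcases hx with rfl | rfl | rfl | rfl <;> assumption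
      have hw : w ∉ ({a, b, c} : Finset V) := by
        simp only [mem_insert, mem_singleton, not_or]
        exact ⟨ha.ne, hb.ne, hc.ne⟩
      have h3 : ({a, b, c} : Finset V).card = 3 := card_eq_three.mpr ⟨a, b, c, hab, hac, hbc, rfl⟩
      have hs : s = 4 := by rw [← hS, e, card_insert_of_notMem hw, h3]
      have h8 : ind T {a, b, c} = 8 := by
        rw [ind_of_indep, h3]
        · norm_num
        · intro x hx' y hy' hxy
          have := hT.dist_ne_of_adj w hxy
          simp only [mem_insert, mem_singleton] at hx' hy'
          rcases hx' with rfl | rfl | rfl <;> rcases hy' with rfl | rfl | rfl <;> omega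
      rw [e, ind_insert T _ w hw, h8, hs]
      have i2 := hA _ (({a, b, c} : Finset V).filter fun x => ¬ T.Adj w x) rfl
      have i3 : Nat.fib 2 ≤ Nat.fib ((({a, b, c} : Finset V).filter fun x => ¬ T.Adj w x).card + 2) :=
        Nat.fib_mono (by omega)
      have := i3.trans i2
      have f6 : Nat.fib (4 + 2) = 8 := by decide
      have f2 : Nat.fib 2 = 1 := by decide
      rw [f6]
      rw [f2] at this
      convert Nat.add_le_add_left this 8
    · obtain ⟨v, hv, hmax⟩ := exists_max_image _ (T.dist w) hne
      obtain ⟨hvS, hvC⟩ := mem_sdiff.mp hv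
      simp only [mem_insert, mem_singleton, not_or] at hvC
      obtain ⟨n1, n2, n3, n4⟩ := hvC
      have dv : 0 < T.dist w v := hT.connected.pos_dist_of_ne (Ne.symm n1)
      have hall : ∀ x ∈ S, T.dist w x ≤ T.dist w v := by
        intro x hx
        by_cases hxC : x ∈ ({w, a, b, c} : Finset V)
        · simp only [mem_insert, mem_singleton] at hxC
          rcases hxC with rfl | rfl | rfl | rfl <;> omega
        · exact hmax x (mem_sdiff.mpr ⟨hx, hxC⟩)
      have e : S = insert v (S.erase v) := (insert_erase hvS).symm
      have hc1 : (S.erase v).card + 1 = s := by rw [card_erase_add_one hvS, hS]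
      have hf := card_filter_ge T (S.erase v) v (fun x hx y hy h1 h2 =>
        hP v x y h1 h2 (hall x (mem_of_mem_erase hx)) (hall y (mem_of_mem_erase hy)))
      rw [e, ind_insert T _ v (notMem_erase v S)]
      have i1 := ih _ (by omega) (S.erase v) rfl (mem_erase.mpr ⟨Ne.symm n1, hw'⟩)
        (mem_erase.mpr ⟨Ne.symm n2, ha'⟩) (mem_erase.mpr ⟨Ne.symm n3, hb'⟩)
        (mem_erase.mpr ⟨Ne.symm n4, hc'⟩)
      have i2 := hA _ ((S.erase v).filter fun x => ¬ T.Adj v x) rfl
      have i3 : Nat.fib s ≤ Nat.fib (((S.erase v).filter fun x => ¬ T.Adj v x).card + 2) :=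
        Nat.fib_mono (by omega)
      have i4 : (S.erase v).card + 2 = s + 1 := by omega
      rw [i4] at i1
      rw [Nat.fib_add_two]
      have := i3.trans i2
      convert Nat.add_le_add i1 this using 1
      ring

theorem ind_path_le (n : ℕ) : ∀ k, k ≤ n →
    ind (pathGraph n) (univ.filter fun x : Fin n => x.val < k) ≤ Nat.fib (k + 2) := by
  classical
  intro k
  induction k using Nat.strong_induction_on with
  | _ k ih =>
    intro hk
    rcases k with _ | k
    · have : (univ.filter fun x : Fin n => x.val < 0) = ∅ := by simp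
      rw [this, ind_empty]; simp
    have e : (univ.filter fun x : Fin n => x.val < k + 1) =
        insert (⟨k, by omega⟩ : Fin n) (univ.filter fun x : Fin n => x.val < k) := by
      ext x
      simp only [mem_filter, mem_univ, true_and, mem_insert, Fin.ext_iff]
      omega
    have e2 : ((univ.filter fun x : Fin n => x.val < k).filter
        fun x => ¬ (pathGraph n).Adj (⟨k, by omega⟩ : Fin n) x) =
        univ.filter fun x : Fin n => x.val < k - 1 := by
      ext x
      simp only [mem_filter, mem_univ, true_and, pathGraph_adj]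
      omega
    have h1 := ind_insert (pathGraph n) (univ.filter fun x : Fin n => x.val < k)
      (⟨k, by omega⟩ : Fin n) (by simp)
    have i1 := ih k (by omega) (by omega)
    have i2 := ih (k - 1) (by omega) (by omega)
    have i3 : Nat.fib (k - 1 + 2) ≤ Nat.fib (k + 1) := by
      rcases k with _ | k
      · decide
      · exact le_of_eq (by congr 1)
    have h2 : ind (pathGraph n) (univ.filter fun x : Fin n => x.val < k + 1) =
        ind (pathGraph n) (univ.filter fun x : Fin n => x.val < k) +
        ind (pathGraph n) (univ.filter fun x : Fin n => x.val < k - 1) := by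
      rw [← e2, e]
      convert h1
    rw [h2, Nat.fib_add_two (n := k + 1)]
    have : k + 1 + 1 = k + 2 := rfl
    rw [this]
    omega

theorem ind_path_univ (n : ℕ) : ind (pathGraph n) univ ≤ Nat.fib (n + 2) := by
  have := ind_path_le n n le_rfl
  rwa [filter_true_of_mem (fun x _ => x.2)] at this

end Ind

end Pool.Agent.H526Z.HL
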