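import Mathlib
import Pool.Agent.H526Z.HL.Tree

/-! Homomorphism counts: isomorphism invariance, blow-ups, disjoint unions. -/

set_option autoImplicit false

namespace Pool.Agent.H526Z.HL

open SimpleGraph Finset

/-- The number of homomorphisms from `G` to the relation `R`. -/
noncomputable def homc {V W : Type} (G : SimpleGraph V) (R : W → W → Prop) : ℕ :=
  Nat.card {f : V → W // ∀ u v, G.Adj u v → R (f u) (f v)}

theorem homc_iso {V V' W : Type} {G : SimpleGraph V} {G' : SimpleGraph V'} (e : G ≃g G')
    (R : W → W → Prop) : homc G R = homc G' R := by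
  unfold homc
  refine Nat.card_congr ⟨fun f => ⟨fun x => f.1 (e.symm x), fun u v h => f.2 _ _ ?_⟩,
    fun f => ⟨fun x => f.1 (e x), fun u v h => f.2 _ _ ?_⟩, ?_, ?_⟩
  · exact e.symm.map_rel_iff.mpr h
  · exact e.map_rel_iff.mpr h
  · intro f; ext x; simp
  · intro f; ext x; simp

theorem homc_le {V W : Type} [Finite V] [Finite W] (G : SimpleGraph V) (R : W → W → Prop) :
    homc G R ≤ Nat.card W ^ Nat.card V := by
  unfold homc
  rw [← Nat.card_fun]
  exact Nat.card_le_card_of_injective Subtype.val Subtype.val_injective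

/-- Blow-up of a relation with class sizes `s`. -/
def blow {ι : Type} (a : ι → ι → Prop) (s : ι → ℕ) (x y : Σ i, Fin (s i)) : Prop := a x.1 y.1

open Classical in
theorem homc_blow {V ι : Type} [Fintype V] [Fintype ι] [DecidableEq V] (G : SimpleGraph V)
    (a : ι → ι → Prop) (s : ι → ℕ) :
    homc G (blow a s) =
      ∑ g : V → ι, if (∀ u v, G.Adj u v → a (g u) (g v)) then ∏ v, s (g v) else 0 := by
  unfold homc
  have e : {f : V → Σ i, Fin (s i) // ∀ u v, G.Adj u v → blow a s (f u) (f v)} ≃
      Σ g : {g : V → ι // ∀ u v, G.Adj u v → a (g u) (g v)}, ∀ v, Fin (s (g.1 v)) :=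
    { toFun := fun f => ⟨⟨fun v => (f.1 v).1, f.2⟩, fun v => (f.1 v).2⟩
      invFun := fun g => ⟨fun v => ⟨g.1.1 v, g.2 v⟩, g.1.2⟩
      left_inv := fun f => rfl
      right_inv := fun g => rfl }
  rw [Nat.card_congr e, Nat.card_eq_fintype_card, Fintype.card_sigma]
  simp only [Fintype.card_pi, Fintype.card_fin]
  rw [← Finset.sum_filter]
  symm
  apply Finset.sum_subtype
  intro g
  simp

/-- The hard-core relation. -/
def hard (x y : Bool) : Prop := ¬ (x = true ∧ y = true)

theorem homc_hard {V : Type} [Fintype V] [DecidableEq V] (G : SimpleGraph V) (k : ℕ) :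
    homc G (blow hard fun _ => k) = k ^ Fintype.card V * ind G univ := by
  classical
  rw [homc_blow]
  simp only [prod_const, card_univ]
  rw [← Finset.sum_filter, sum_const, smul_eq_mul, mul_comm]
  congr 1
  unfold ind
  apply card_bij (fun g _ => univ.filter fun v => g v = true)
  · intro g hg
    simp only [mem_filter, mem_univ, true_and, mem_powerset, subset_univ] at hg ⊢
    intro u hu v hv h
    exact hg u v h ⟨hu, hv⟩
  · intro g _ g' _ h
    funext v
    have : v ∈ (univ.filter fun v => g v = true) ↔ v ∈ (univ.filter fun v => g' v = true) := by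
      rw [h]
    simp only [mem_filter, mem_univ, true_and] at this
    exact Bool.eq_iff_iff.mpr this
  · intro A hA
    simp only [mem_filter, mem_powerset, subset_univ, true_and] at hA
    refine ⟨fun v => decide (v ∈ A), ?_, ?_⟩
    · simp only [mem_filter, mem_univ, true_and]
      intro u v h h'
      exact hA u (by simpa using h'.1) v (by simpa using h'.2) h
    · ext v; simp

/-- Disjoint union of `R₁` with `m` copies of `R₀`. -/
def uni {W₁ W₀ : Type} (R₁ : W₁ → W₁ → Prop) (R₀ : W₀ → W₀ → Prop) (m : ℕ) :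
    W₁ ⊕ (Fin m × W₀) → W₁ ⊕ (Fin m × W₀) → Prop
  | Sum.inl x, Sum.inl y => R₁ x y
  | Sum.inr x, Sum.inr y => x.1 = y.1 ∧ R₀ x.2 y.2
  | _, _ => False

theorem uni_symm {W₁ W₀ : Type} {R₁ : W₁ → W₁ → Prop} {R₀ : W₀ → W₀ → Prop} (m : ℕ)
    (h₁ : ∀ x y, R₁ x y → R₁ y x) (h₀ : ∀ x y, R₀ x y → R₀ y x) :
    ∀ x y, uni R₁ R₀ m x y → uni R₁ R₀ m y x := by
  rintro (x | x) (y | y) h
  · exact h₁ _ _ h
  · exact h.elim
  · exact h.elim
  · exact ⟨h.1.symm, h₀ _ _ h.2⟩

/-- The component label. -/
def lab {W₁ W₀ : Type} {m : ℕ} : W₁ ⊕ (Fin m × W₀) → Option (Fin m)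
  | Sum.inl _ => none
  | Sum.inr x => some x.1

theorem homc_uni {V W₁ W₀ : Type} [Finite V] [Finite W₁] [Finite W₀] {G : SimpleGraph V}
    (hG : G.Connected) (R₁ : W₁ → W₁ → Prop) (R₀ : W₀ → W₀ → Prop) (m : ℕ) :
    homc G (uni R₁ R₀ m) = homc G R₁ + m * homc G R₀ := by
  unfold homc
  let Φ : {f : V → W₁ // ∀ u v, G.Adj u v → R₁ (f u) (f v)} ⊕
      (Fin m × {f : V → W₀ // ∀ u v, G.Adj u v → R₀ (f u) (f v)}) →
      {f : V → W₁ ⊕ (Fin m × W₀) // ∀ u v, G.Adj u v → uni R₁ R₀ m (f u) (f v)} := fun z =>
    match z with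
    | Sum.inl f => ⟨fun v => Sum.inl (f.1 v), fun u v h => f.2 u v h⟩
    | Sum.inr f => ⟨fun v => Sum.inr (f.1, f.2.1 v), fun u v h => ⟨rfl, f.2.2 u v h⟩⟩
  obtain ⟨r⟩ := hG.nonempty
  have hinj : Function.Injective Φ := by
    rintro (f | ⟨i, f⟩) (g | ⟨j, g⟩) h
    · congr 1
      ext v
      have := congrFun (congrArg Subtype.val h) v
      simpa [Φ] using this
    · have := congrFun (congrArg Subtype.val h) r
      simp [Φ] at this
    · have := congrFun (congrArg Subtype.val h) r
      simp [Φ] at this
    · have h1 := congrFun (congrArg Subtype.val h) r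
      have hij : i = j := by
        simp only [Φ, Sum.inr.injEq, Prod.mk.injEq] at h1
        exact h1.1
      subst hij
      congr 2
      ext v
      have := congrFun (congrArg Subtype.val h) v
      simpa [Φ] using this
  have hsur : Function.Surjective Φ := by
    rintro ⟨f, hf⟩
    have hl : ∀ u v, G.Adj u v → lab (f u) = lab (f v) := by
      intro u v h
      have := hf u v h
      revert this
      rcases f u with x | x <;> rcases f v with y | y <;> intro this
      · rfl
      · exact this.elim
      · exact this.elim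
      · simp only [lab]; rw [this.1]
    have hc : ∀ v, lab (f v) = lab (f r) := by
      intro v
      obtain ⟨p⟩ := hG.preconnected v r
      induction p with
      | nil => rfl
      | cons h _ ih => rw [hl _ _ h]; exact ih
    rcases hr : f r with x | x
    · have : ∀ v, ∃ y, f v = Sum.inl y := by
        intro v
        have := hc v
        rw [hr] at this
        revert this
        rcases f v with y | y <;> intro this
        · exact ⟨y, rfl⟩
        · simp [lab] at this
      choose g hg using this
      refine ⟨Sum.inl ⟨g, fun u v h => ?_⟩, ?_⟩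
      · have := hf u v h
        rw [hg u, hg v] at this
        exact this
      · apply Subtype.ext
        funext v
        exact (hg v).symm
    · have : ∀ v, ∃ y, f v = Sum.inr (x.1, y) := by
        intro v
        have := hc v
        rw [hr] at this
        revert this
        rcases f v with y | y <;> intro this
        · simp [lab] at this
        · simp only [lab, Option.some.injEq] at this
          exact ⟨y.2, by rw [← this]⟩
      choose g hg using this
      refine ⟨Sum.inr ⟨x.1, g, fun u v h => ?_⟩, ?_⟩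
      · have := hf u v h
        rw [hg u, hg v] at this
        exact this.2
      · apply Subtype.ext
        funext v
        exact (hg v).symm
  rw [← Nat.card_congr (Equiv.ofBijective Φ ⟨hinj, hsur⟩), Nat.card_sum, Nat.card_prod]
  simp

/-- From any target on which some tree beats the path, one gets a target on which the path is
eventually, but not always, a minimiser. -/
theorem eventually_of_bad {W₀ : Type} [Finite W₀] (R₀ : W₀ → W₀ → Prop)
    (h₀ : ∀ x y, R₀ x y → R₀ y x) (α : ℕ) (T₀ : SimpleGraph (Fin (α + 1))) (hT₀ : T₀.IsTree)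
    (hbad : homc T₀ R₀ < homc (pathGraph (α + 1)) R₀) :
    ∃ (W : Type) (_ : Finite W) (R : W → W → Prop), (∀ a b, R a b → R b a) ∧
      ∃ β : ℕ, α + 1 < β ∧ homc T₀ R < homc (pathGraph (α + 1)) R ∧
        ∀ n : ℕ, β ≤ n → ∀ T : SimpleGraph (Fin n), T.IsTree →
          homc (pathGraph n) R ≤ homc T R := by
  classical
  set c := Nat.card W₀ with hc
  set R₁ := blow hard fun _ => 2 * c with hR₁
  set m := homc T₀ R₁ + 1 with hm
  refine ⟨_, inferInstance, uni R₁ R₀ m, uni_symm m ?_ h₀, m + α + 2, by omega, ?_, ?_⟩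
  · intro x y h h'
    exact h ⟨h'.2, h'.1⟩
  · rw [homc_uni hT₀.connected, homc_uni (pathGraph_connected α)]
    have : m * (homc T₀ R₀ + 1) ≤ m * homc (pathGraph (α + 1)) R₀ := Nat.mul_le_mul_left _ hbad
    rw [mul_add, mul_one] at this
    omega
  · intro n hn T hT
    by_cases hcl : ∀ w a b c, T.Adj w a → T.Adj w b → T.Adj w c → a = b ∨ a = c ∨ b = c
    · obtain ⟨e⟩ := iso_path (by omega) hT hcl
      exact (homc_iso e _).ge
    · push Not at hcl
      obtain ⟨w, a, b, c', ha, hb, hc', hab, hac, hbc⟩ := hcl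
      have h1 := fib_lt_ind hT w a b c' ha hb hc' hab hac hbc n univ (by simp) (mem_univ _)
        (mem_univ _) (mem_univ _) (mem_univ _)
      have h2 := ind_path_univ n
      obtain ⟨n', rfl⟩ : ∃ n', n = n' + 1 := ⟨n - 1, by omega⟩
      rw [homc_uni hT.connected, homc_uni (pathGraph_connected n'), hR₁, homc_hard, homc_hard,
        Fintype.card_fin]
      have h3 := homc_le (pathGraph (n' + 1)) R₀
      rw [← hc, Nat.card_eq_fintype_card, Fintype.card_fin] at h3
      have h4 : m ≤ 2 ^ (n' + 1) :=
        le_trans (by omega) (Nat.lt_two_pow_self (n := n' + 1)).le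
      have h5 : m * homc (pathGraph (n' + 1)) R₀ ≤ (2 * c) ^ (n' + 1) := by
        rw [mul_pow]; exact Nat.mul_le_mul h4 h3
      have h6 : (2 * c) ^ (n' + 1) * (ind (pathGraph (n' + 1)) univ + 1) ≤
          (2 * c) ^ (n' + 1) * ind T univ := Nat.mul_le_mul_left _ (by omega)
      rw [mul_add, mul_one] at h6
      omega

end Pool.Agent.H526Z.HL
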