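import Mathlib
import Pool.Agent.H526Z.HL.Hom

/-! A weighted path on five vertices on which the tree `E₇` has fewer colourings than `P₇`. -/

set_option autoImplicit false

namespace Pool.Agent.H526Z.HL

open SimpleGraph Finset

/-- Path `0-1-2-3-4-5` with the vertex `6` attached to `2`. -/
def E7 : SimpleGraph (Fin 7) where
  Adj u v := (u.val + 1 = v.val ∧ v.val ≤ 5) ∨ (v.val + 1 = u.val ∧ u.val ≤ 5) ∨
    (u.val = 2 ∧ v.val = 6) ∨ (u.val = 6 ∧ v.val = 2)
  symm := ⟨by intro u v h; omega⟩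
  loopless := ⟨by intro u h; omega⟩

instance : DecidableRel E7.Adj := fun u v => by unfold E7; infer_instance

theorem E7_tree : E7.IsTree := by
  rw [isTree_iff_connected_and_card]
  constructor
  · have h01 : E7.Adj 0 1 := by decide
    have h12 : E7.Adj 1 2 := by decide
    have h23 : E7.Adj 2 3 := by decide
    have h34 : E7.Adj 3 4 := by decide
    have h45 : E7.Adj 4 5 := by decide
    have h26 : E7.Adj 2 6 := by decide
    have r1 := h01.reachable
    have r2 := r1.trans h12.reachable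
    have r3 := r2.trans h23.reachable
    have r4 := r3.trans h34.reachable
    have r5 := r4.trans h45.reachable
    have r6 := r2.trans h26.reachable
    rw [connected_iff_exists_forall_reachable]
    refine ⟨0, fun w => ?_⟩
    fin_cases w
    exacts [Reachable.refl _, r1, r2, r3, r4, r5, r6]
  · rw [Nat.card_eq_fintype_card, ← edgeFinset_card, Nat.card_eq_fintype_card, Fintype.card_fin]
    decide

def a5 (x y : Fin 5) : Prop := x.val + 1 = y.val ∨ y.val + 1 = x.val

instance : DecidableRel a5 := fun x y => by unfold a5; infer_instance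

def s5 : Fin 5 → ℕ := ![43, 1, 1, 4, 32]

theorem sum_fun_succ {ι : Type} [Fintype ι] {n : ℕ} (F : (Fin (n + 1) → ι) → ℕ) :
    ∑ g, F g = ∑ x : ι, ∑ g : Fin n → ι, F (Matrix.vecCons x g) := by
  rw [← Fintype.sum_prod_type']
  exact (Fintype.sum_equiv (Fin.consEquiv fun _ => ι) _ _ (fun _ => rfl)).symm

theorem sum_fun_seven {ι : Type} [Fintype ι] (F : (Fin 7 → ι) → ℕ) :
    ∑ g, F g = ∑ x0 : ι, ∑ x1 : ι, ∑ x2 : ι, ∑ x3 : ι, ∑ x4 : ι, ∑ x5 : ι, ∑ x6 : ι,
      F ![x0, x1, x2, x3, x4, x5, x6] := by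
  simp only [sum_fun_succ, Fintype.sum_unique]
  rfl

theorem ite_eq_aux {P Q : Prop} {i : Decidable P} {j : Decidable Q} {x y : ℕ} (h : P ↔ Q)
    (e : x = y) : @ite ℕ P i x 0 = @ite ℕ Q j y 0 := by
  by_cases hP : P
  · rw [if_pos hP, if_pos (h.mp hP), e]
  · rw [if_neg hP, if_neg (fun q => hP (h.mpr q))]

theorem a5_symm (x y : Fin 5) (h : a5 x y) : a5 y x := Or.symm h

theorem homc_E7 : homc E7 (blow a5 s5) =
    ∑ x0 : Fin 5, ∑ x1 : Fin 5, ∑ x2 : Fin 5, ∑ x3 : Fin 5, ∑ x4 : Fin 5, ∑ x5 : Fin 5,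
      ∑ x6 : Fin 5, if a5 x0 x1 ∧ a5 x1 x2 ∧ a5 x2 x3 ∧ a5 x3 x4 ∧ a5 x4 x5 ∧ a5 x2 x6 then
        s5 x0 * s5 x1 * s5 x2 * s5 x3 * s5 x4 * s5 x5 * s5 x6 else 0 := by
  rw [homc_blow, sum_fun_seven]
  refine sum_congr rfl fun x0 _ => sum_congr rfl fun x1 _ => sum_congr rfl fun x2 _ =>
    sum_congr rfl fun x3 _ => sum_congr rfl fun x4 _ => sum_congr rfl fun x5 _ =>
    sum_congr rfl fun x6 _ => ?_
  refine ite_eq_aux ?_ ?_
  · constructor
    · intro h
      exact ⟨h 0 1 (by decide), h 1 2 (by decide), h 2 3 (by decide), h 3 4 (by decide),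
        h 4 5 (by decide), h 2 6 (by decide)⟩
    · rintro ⟨h1, h2, h3, h4, h5, h6⟩ u v huv
      fin_cases u <;> fin_cases v <;>
        first
          | exact absurd huv (by decide)
          | assumption
          | exact a5_symm _ _ (by assumption)
  · rw [Fin.prod_univ_seven]; rfl

theorem homc_P7 : homc (pathGraph 7) (blow a5 s5) =
    ∑ x0 : Fin 5, ∑ x1 : Fin 5, ∑ x2 : Fin 5, ∑ x3 : Fin 5, ∑ x4 : Fin 5, ∑ x5 : Fin 5,
      ∑ x6 : Fin 5, if a5 x0 x1 ∧ a5 x1 x2 ∧ a5 x2 x3 ∧ a5 x3 x4 ∧ a5 x4 x5 ∧ a5 x5 x6 then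
        s5 x0 * s5 x1 * s5 x2 * s5 x3 * s5 x4 * s5 x5 * s5 x6 else 0 := by
  rw [homc_blow, sum_fun_seven]
  refine sum_congr rfl fun x0 _ => sum_congr rfl fun x1 _ => sum_congr rfl fun x2 _ =>
    sum_congr rfl fun x3 _ => sum_congr rfl fun x4 _ => sum_congr rfl fun x5 _ =>
    sum_congr rfl fun x6 _ => ?_
  refine ite_eq_aux ?_ ?_
  · simp only [pathGraph_adj]
    constructor
    · intro h
      exact ⟨h 0 1 (by decide), h 1 2 (by decide), h 2 3 (by decide), h 3 4 (by decide),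
        h 4 5 (by decide), h 5 6 (by decide)⟩
    · rintro ⟨h1, h2, h3, h4, h5, h6⟩ u v huv
      fin_cases u <;> fin_cases v <;>
        first
          | exact absurd huv (by decide)
          | assumption
          | exact a5_symm _ _ (by assumption)
  · rw [Fin.prod_univ_seven]; rfl

theorem val_E7 : homc E7 (blow a5 s5) = 91203904 := by
  rw [homc_E7]; decide +kernel

theorem val_P7 : homc (pathGraph 7) (blow a5 s5) = 91208864 := by
  rw [homc_P7]; decide +kernel

theorem main :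
    ∃ (W : Type) (_ : Finite W) (R : W → W → Prop), (∀ a b, R a b → R b a) ∧
      ∃ β : ℕ, 7 < β ∧ homc E7 R < homc (pathGraph 7) R ∧
        ∀ n : ℕ, β ≤ n → ∀ T : SimpleGraph (Fin n), T.IsTree →
          homc (pathGraph n) R ≤ homc T R :=
  eventually_of_bad (blow a5 s5) (fun _ _ h => a5_symm _ _ h) 6 E7 E7_tree
    (by rw [val_E7, val_P7]; norm_num)

end Pool.Agent.H526Z.HL
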